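import Mathlib

/-!
The interval between the varieties of ai-semirings generated by `S₇` and by `S₇⁰` has the
cardinality of the continuum.
-/

namespace Pool.Agent.Results.MP_9c5c66_al.ContinuumInterval

/-! ### Definitions -/

/-- Additively idempotent semirings (in the signature `{+,·}`). -/
structure AISemiring where
  carrier : Type
  add : carrier → carrier → carrier
  mul : carrier → carrier → carrier
  add_assoc : ∀ x y z, add (add x y) z = add x (add y z)
  add_comm : ∀ x y, add x y = add y x
  add_idem : ∀ x, add x x = x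
  mul_assoc : ∀ x y z, mul (mul x y) z = mul x (mul y z)
  mul_add : ∀ x y z, mul x (add y z) = add (mul x y) (mul x z)
  add_mul : ∀ x y z, mul (add x y) z = add (mul x z) (mul y z)

/-- Terms in the variables `x₀, x₁, …`. -/
inductive Term where
  | var : ℕ → Term
  | add : Term → Term → Term
  | mul : Term → Term → Term

/-- Evaluation of terms. -/
def eval (S : AISemiring) (ρ : ℕ → S.carrier) : Term → S.carrier
  | .var n => ρ n
  | .add s t => S.add (eval S ρ s) (eval S ρ t)
  | .mul s t => S.mul (eval S ρ s) (eval S ρ t)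

/-- `S` satisfies the identity `e.1 ≈ e.2`. -/
def Sat (S : AISemiring) (e : Term × Term) : Prop :=
  ∀ ρ : ℕ → S.carrier, eval S ρ e.1 = eval S ρ e.2

/-- A variety of ai-semirings: a class defined by a set of identities. -/
def IsVariety (𝒱 : Set AISemiring) : Prop :=
  ∃ T : Set (Term × Term), 𝒱 = {S | ∀ e ∈ T, Sat S e}

/-- The variety generated by `A`: the least variety containing `A`. -/
def gen (A : AISemiring) : Set AISemiring :=
  {S | ∀ 𝒱 : Set AISemiring, IsVariety 𝒱 → A ∈ 𝒱 → S ∈ 𝒱}

/-- The elements of `S₇`. -/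
inductive E3 where
  | one | a | t
  deriving DecidableEq, Fintype

/-- The elements of `S₇⁰`. -/
inductive E4 where
  | zero | one | a | t
  deriving DecidableEq, Fintype

/-- Addition of `S₇`: `x + x = x`, and `x + y = t` for `x ≠ y`. -/
def E3.add (x y : E3) : E3 := if x = y then x else .t

/-- Multiplication of `S₇`. -/
def E3.mul : E3 → E3 → E3
  | .one, y => y
  | x, .one => x
  | _, _ => .t

/-- Addition of `S₇⁰`. -/
def E4.add : E4 → E4 → E4
  | .zero, y => y
  | x, .zero => x
  | x, y => if x = y then x else .t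

/-- Multiplication of `S₇⁰`. -/
def E4.mul : E4 → E4 → E4
  | .zero, _ => .zero
  | _, .zero => .zero
  | .one, y => y
  | x, .one => x
  | _, _ => .t

/-- The semiring `S₇`. -/
def S7 : AISemiring where
  carrier := E3
  add := E3.add
  mul := E3.mul
  add_assoc := by decide
  add_comm := by decide
  add_idem := by decide
  mul_assoc := by decide
  mul_add := by decide
  add_mul := by decide

/-- The semiring `S₇⁰`. -/
def S70 : AISemiring where
  carrier := E4
  add := E4.add
  mul := E4.mul
  add_assoc := by decide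
  add_comm := by decide
  add_idem := by decide
  mul_assoc := by decide
  mul_add := by decide
  add_mul := by decide

/-- The interval of varieties `[V(S₇), V(S₇⁰)]`. -/
def interval : Set (Set AISemiring) := {𝒱 | IsVariety 𝒱 ∧ gen S7 ⊆ 𝒱 ∧ 𝒱 ⊆ gen S70}

/-! ### Basic facts -/

theorem mem_gen {A S : AISemiring} : S ∈ gen A ↔ ∀ e, Sat A e → Sat S e := by
  constructor
  · intro h
    exact h {S | ∀ e ∈ {e | Sat A e}, Sat S e} ⟨_, rfl⟩ (fun e he => he)
  · rintro h 𝒱 ⟨T, rfl⟩ hA e he
    exact h e (hA e he)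

/-- The embedding of `S₇` into `S₇⁰`. -/
def emb : E3 → E4
  | .one => .one
  | .a => .a
  | .t => .t

theorem emb_inj : Function.Injective emb := by decide

theorem emb_add : ∀ x y, emb (E3.add x y) = E4.add (emb x) (emb y) := by decide

theorem emb_mul : ∀ x y, emb (E3.mul x y) = E4.mul (emb x) (emb y) := by decide

theorem emb_eval (ρ : ℕ → E3) (s : Term) :
    emb (eval S7 ρ s) = eval S70 (fun n => emb (ρ n)) s := by
  induction s with
  | var n => rfl
  | add s t hs ht =>
    change emb (E3.add _ _) = E4.add _ _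
    rw [emb_add, hs, ht]
  | mul s t hs ht =>
    change emb (E3.mul _ _) = E4.mul _ _
    rw [emb_mul, hs, ht]

theorem sat_S7 {e : Term × Term} (h : Sat S70 e) : Sat S7 e := by
  intro ρ
  apply emb_inj
  rw [emb_eval, emb_eval]
  exact h _

/-! ### Words of a term -/

/-- The words (monomials) of a term. -/
def words : Term → Set (List ℕ)
  | .var n => {[n]}
  | .add s t => words s ∪ words t
  | .mul s t => {w | ∃ u ∈ words s, ∃ v ∈ words t, w = u ++ v}

theorem words_ne (s : Term) : ∀ w ∈ words s, w ≠ [] := by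
  induction s with
  | var n => rintro w rfl; simp
  | add s t hs ht =>
    rintro w (h | h)
    · exact hs w h
    · exact ht w h
  | mul s t hs ht =>
    rintro w ⟨u, hu, v, hv, rfl⟩
    have := hs u hu
    simp [this]

/-- The value of a word in `S₇⁰`. -/
def wval (ρ : ℕ → E4) : List ℕ → E4
  | [] => .one
  | x :: l => E4.mul (ρ x) (wval ρ l)

theorem E4.one_mul : ∀ x, E4.mul .one x = x := by decide
theorem E4.mul_assoc' : ∀ x y z, E4.mul (E4.mul x y) z = E4.mul x (E4.mul y z) := by decide
theorem E4.mul_comm' : ∀ x y, E4.mul x y = E4.mul y x := by decide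

theorem wval_append (ρ : ℕ → E4) (u v : List ℕ) :
    wval ρ (u ++ v) = E4.mul (wval ρ u) (wval ρ v) := by
  induction u with
  | nil => simp [wval, E4.one_mul]
  | cons x l ih => simp only [List.cons_append, wval, ih, E4.mul_assoc']

/-- The order of `S₇⁰`. -/
def le (x y : E4) : Prop := E4.add x y = y

instance : DecidableRel le := fun _ _ => inferInstanceAs (Decidable (_ = _))

theorem le_trans' : ∀ x y z, le x y → le y z → le x z := by decide
theorem le_add_left : ∀ x y, le x (E4.add x y) := by decide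
theorem le_add_right : ∀ x y, le y (E4.add x y) := by decide
theorem add_le : ∀ x y z, le x z → le y z → le (E4.add x y) z := by decide
theorem mul_le_mul : ∀ x y z w, le x y → le z w → le (E4.mul x z) (E4.mul y w) := by decide
theorem E4.mul_add' : ∀ x y z, E4.mul x (E4.add y z) = E4.add (E4.mul x y) (E4.mul x z) := by
  decide

theorem word_le (ρ : ℕ → E4) (s : Term) : ∀ w ∈ words s, le (wval ρ w) (eval S70 ρ s) := by
  induction s with
  | var n =>
    rintro w rfl
    change le (E4.mul (ρ n) .one) (ρ n)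
    generalize ρ n = x
    revert x; decide
  | add s t hs ht =>
    rintro w (h | h)
    · exact le_trans' _ _ _ (hs w h) (le_add_left _ _)
    · exact le_trans' _ _ _ (ht w h) (le_add_right _ _)
  | mul s t hs ht =>
    rintro w ⟨u, hu, v, hv, rfl⟩
    rw [wval_append]
    exact mul_le_mul _ _ _ _ (hs u hu) (ht v hv)

theorem eval_le_aux (ρ : ℕ → E4) (s : Term) : ∀ r c : E4,
    (∀ w ∈ words s, le (E4.mul r (wval ρ w)) c) → le (E4.mul r (eval S70 ρ s)) c := by
  induction s with
  | var n =>
    intro r c h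
    have := h [n] rfl
    change le (E4.mul r (E4.mul (ρ n) .one)) c at this
    change le (E4.mul r (ρ n)) c
    rw [E4.mul_comm' (ρ n), E4.one_mul] at this
    exact this
  | add s t hs ht =>
    intro r c h
    change le (E4.mul r (E4.add _ _)) c
    rw [E4.mul_add']
    exact add_le _ _ _ (hs r c fun w hw => h w (Or.inl hw)) (ht r c fun w hw => h w (Or.inr hw))
  | mul s t hs ht =>
    intro r c h
    change le (E4.mul r (E4.mul _ _)) c
    rw [← E4.mul_assoc']
    apply ht
    intro v hv
    rw [E4.mul_assoc', E4.mul_comm' (eval S70 ρ s), ← E4.mul_assoc']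
    apply hs
    intro u hu
    have := h (u ++ v) ⟨u, hu, v, hv, rfl⟩
    rw [wval_append] at this
    rw [E4.mul_assoc', E4.mul_comm' (wval ρ v)]
    exact this

theorem eval_le (ρ : ℕ → E4) (s : Term) (c : E4) (h : ∀ w ∈ words s, le (wval ρ w) c) :
    le (eval S70 ρ s) c := by
  have := eval_le_aux ρ s .one c (fun w hw => by rw [E4.one_mul]; exact h w hw)
  rwa [E4.one_mul] at this

/-! ### The syntactic semirings -/

/-- Sets of nonempty commutative monomials. -/
abbrev MSet : Type := {P : Set (Multiset ℕ) // (0 : Multiset ℕ) ∉ P}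

/-- Elementwise products. -/
def mulSet (P Q : Set (Multiset ℕ)) : Set (Multiset ℕ) := {w | ∃ u ∈ P, ∃ v ∈ Q, w = u + v}

/-- Union on `MSet`. -/
def MSet.add (P Q : MSet) : MSet := ⟨P.1 ∪ Q.1, by
  rintro (h | h)
  · exact P.2 h
  · exact Q.2 h⟩

/-- Product on `MSet`. -/
def MSet.mul (P Q : MSet) : MSet := ⟨mulSet P.1 Q.1, by
  rintro ⟨u, hu, v, hv, h⟩
  have h2 : u = 0 := (Multiset.le_zero.1 (h ▸ Multiset.le_add_right u v))
  exact P.2 (h2 ▸ hu)⟩

/-- The syntactic congruence of a set `K` of monomials. -/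
def syn (K : Set (Multiset ℕ)) : Setoid MSet where
  r P Q := ∀ s : Multiset ℕ, (∀ u ∈ P.1, s + u ∈ K) ↔ (∀ u ∈ Q.1, s + u ∈ K)
  iseqv := ⟨fun _ _ => Iff.rfl, fun h s => (h s).symm, fun h1 h2 s => (h1 s).trans (h2 s)⟩

theorem syn_add (K : Set (Multiset ℕ)) (P P' Q Q' : MSet) (h1 : (syn K).r P P')
    (h2 : (syn K).r Q Q') : (syn K).r (P.add Q) (P'.add Q') := by
  intro s
  have e : ∀ A B : MSet, (∀ u ∈ (A.add B).1, s + u ∈ K) ↔
      (∀ u ∈ A.1, s + u ∈ K) ∧ (∀ u ∈ B.1, s + u ∈ K) := by
    intro A B
    constructor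
    · intro h
      exact ⟨fun u hu => h u (Or.inl hu), fun u hu => h u (Or.inr hu)⟩
    · rintro ⟨h1, h2⟩ u (hu | hu)
      · exact h1 u hu
      · exact h2 u hu
  rw [e, e, h1 s, h2 s]

theorem syn_mul (K : Set (Multiset ℕ)) (P P' Q Q' : MSet) (h1 : (syn K).r P P')
    (h2 : (syn K).r Q Q') : (syn K).r (P.mul Q) (P'.mul Q') := by
  intro s
  have e : ∀ A B : MSet, (∀ u ∈ (A.mul B).1, s + u ∈ K) ↔
      (∀ u ∈ A.1, ∀ v ∈ B.1, s + (u + v) ∈ K) := by
    intro A B
    constructor
    · intro h u hu v hv
      exact h _ ⟨u, hu, v, hv, rfl⟩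
    · rintro h w ⟨u, hu, v, hv, rfl⟩
      exact h u hu v hv
  rw [e, e]
  constructor
  · intro h u hu v hv
    have h3 : ∀ u ∈ P.1, (s + u) + v ∈ K := by
      intro u hu
      have := (h2 (s + u)).1 (fun v hv => by rw [add_assoc]; exact h u hu v hv) v hv
      exact this
    have h4 := (h1 (s + v)).1 (fun u hu => by
      have := h3 u hu
      rwa [add_right_comm] at this) u hu
    rwa [add_right_comm, add_assoc] at h4
  · intro h u hu v hv
    have h3 : ∀ u ∈ P'.1, (s + u) + v ∈ K := by
      intro u hu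
      have := (h2 (s + u)).2 (fun v hv => by rw [add_assoc]; exact h u hu v hv) v hv
      exact this
    have h4 := (h1 (s + v)).2 (fun u hu => by
      have := h3 u hu
      rwa [add_right_comm] at this) u hu
    rwa [add_right_comm, add_assoc] at h4

/-- The syntactic semiring of `K`. -/
def T (K : Set (Multiset ℕ)) : AISemiring where
  carrier := Quotient (syn K)
  add := Quotient.map₂ MSet.add (fun _ _ h1 _ _ h2 => syn_add K _ _ _ _ h1 h2)
  mul := Quotient.map₂ MSet.mul (fun _ _ h1 _ _ h2 => syn_mul K _ _ _ _ h1 h2)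
  add_assoc := by
    rintro ⟨x⟩ ⟨y⟩ ⟨z⟩
    apply congrArg (Quotient.mk (syn K))
    apply Subtype.ext
    exact Set.union_assoc _ _ _
  add_comm := by
    rintro ⟨x⟩ ⟨y⟩
    apply congrArg (Quotient.mk (syn K))
    apply Subtype.ext
    exact Set.union_comm _ _
  add_idem := by
    rintro ⟨x⟩
    apply congrArg (Quotient.mk (syn K))
    apply Subtype.ext
    exact Set.union_self _
  mul_assoc := by
    rintro ⟨x⟩ ⟨y⟩ ⟨z⟩
    apply congrArg (Quotient.mk (syn K))
    apply Subtype.ext
    ext w
    constructor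
    · rintro ⟨_, ⟨u, hu, v, hv, rfl⟩, w, hw, rfl⟩
      exact ⟨u, hu, _, ⟨v, hv, w, hw, rfl⟩, add_assoc _ _ _⟩
    · rintro ⟨u, hu, _, ⟨v, hv, w, hw, rfl⟩, rfl⟩
      exact ⟨_, ⟨u, hu, v, hv, rfl⟩, w, hw, (add_assoc _ _ _).symm⟩
  mul_add := by
    rintro ⟨x⟩ ⟨y⟩ ⟨z⟩
    apply congrArg (Quotient.mk (syn K))
    apply Subtype.ext
    ext w
    constructor
    · rintro ⟨u, hu, v, hv | hv, rfl⟩
      · exact Or.inl ⟨u, hu, v, hv, rfl⟩
      · exact Or.inr ⟨u, hu, v, hv, rfl⟩
    · rintro (⟨u, hu, v, hv, rfl⟩ | ⟨u, hu, v, hv, rfl⟩)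
      · exact ⟨u, hu, v, Or.inl hv, rfl⟩
      · exact ⟨u, hu, v, Or.inr hv, rfl⟩
  add_mul := by
    rintro ⟨x⟩ ⟨y⟩ ⟨z⟩
    apply congrArg (Quotient.mk (syn K))
    apply Subtype.ext
    ext w
    constructor
    · rintro ⟨u, hu | hu, v, hv, rfl⟩
      · exact Or.inl ⟨u, hu, v, hv, rfl⟩
      · exact Or.inr ⟨u, hu, v, hv, rfl⟩
    · rintro (⟨u, hu, v, hv, rfl⟩ | ⟨u, hu, v, hv, rfl⟩)
      · exact ⟨u, Or.inl hu, v, hv, rfl⟩
      · exact ⟨u, Or.inr hu, v, hv, rfl⟩

/-- Evaluation in sets of monomials. -/
def evalM (ρ : ℕ → MSet) : Term → MSet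
  | .var n => ρ n
  | .add s t => (evalM ρ s).add (evalM ρ t)
  | .mul s t => (evalM ρ s).mul (evalM ρ t)

theorem eval_T (K : Set (Multiset ℕ)) (ρ : ℕ → MSet) (s : Term) :
    eval (T K) (fun n => Quotient.mk (syn K) (ρ n)) s = Quotient.mk (syn K) (evalM ρ s) := by
  induction s with
  | var n => rfl
  | add s t hs ht =>
    change (T K).add _ _ = _
    rw [hs, ht]; rfl
  | mul s t hs ht =>
    change (T K).mul _ _ = _
    rw [hs, ht]; rfl

/-- The products of choices along a word. -/
def choices (ρ : ℕ → Set (Multiset ℕ)) (w : List ℕ) : Set (Multiset ℕ) :=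
  {u | ∃ ms : List (Multiset ℕ), List.Forall₂ (fun m x => m ∈ ρ x) ms w ∧ u = ms.sum}

theorem mem_evalM (ρ : ℕ → MSet) (s : Term) (u : Multiset ℕ) :
    u ∈ (evalM ρ s).1 ↔ ∃ w ∈ words s, u ∈ choices (fun n => (ρ n).1) w := by
  induction s generalizing u with
  | var n =>
    constructor
    · intro h
      refine ⟨[n], rfl, [u], ?_, by simp⟩
      exact List.Forall₂.cons h List.Forall₂.nil
    · rintro ⟨w, rfl, ms, h, rfl⟩
      cases h with
      | cons h1 h2 =>
        cases h2
        simpa [evalM] using h1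
  | add s t hs ht =>
    change u ∈ (evalM ρ s).1 ∪ (evalM ρ t).1 ↔ _
    rw [Set.mem_union, hs, ht]
    constructor
    · rintro (⟨w, hw, h⟩ | ⟨w, hw, h⟩)
      · exact ⟨w, Or.inl hw, h⟩
      · exact ⟨w, Or.inr hw, h⟩
    · rintro ⟨w, hw | hw, h⟩
      · exact Or.inl ⟨w, hw, h⟩
      · exact Or.inr ⟨w, hw, h⟩
  | mul s t hs ht =>
    constructor
    · rintro ⟨u, hu, v, hv, rfl⟩
      obtain ⟨w1, hw1, ms1, h1, rfl⟩ := (hs _).1 hu
      obtain ⟨w2, hw2, ms2, h2, rfl⟩ := (ht _).1 hv
      exact ⟨w1 ++ w2, ⟨w1, hw1, w2, hw2, rfl⟩, ms1 ++ ms2, List.rel_append h1 h2, by simp⟩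
    · rintro ⟨w, ⟨w1, hw1, w2, hw2, rfl⟩, ms, h, rfl⟩
      obtain ⟨ms1, ms2, h1, h2, rfl⟩ : ∃ ms1 ms2, List.Forall₂ (fun m x => m ∈ (ρ x).1) ms1 w1 ∧
          List.Forall₂ (fun m x => m ∈ (ρ x).1) ms2 w2 ∧ ms = ms1 ++ ms2 := by
        refine ⟨ms.take w1.length, ms.drop w1.length, ?_, ?_, (List.take_append_drop _ _).symm⟩
        · have := List.forall₂_take w1.length h
          simpa using this
        · have := List.forall₂_drop w1.length h
          simpa using this
      refine ⟨ms1.sum, (hs _).2 ⟨w1, hw1, ms1, h1, rfl⟩, ms2.sum, (ht _).2 ⟨w2, hw2, ms2, h2, rfl⟩,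
        by simp⟩

/-- Satisfaction in the syntactic semiring. -/
theorem sat_T (K : Set (Multiset ℕ)) (e : Term × Term) :
    Sat (T K) e ↔ ∀ (ρ : ℕ → MSet) (s : Multiset ℕ),
      (∀ u ∈ (evalM ρ e.1).1, s + u ∈ K) ↔ (∀ u ∈ (evalM ρ e.2).1, s + u ∈ K) := by
  constructor
  · intro h ρ s
    have := h (fun n => Quotient.mk (syn K) (ρ n))
    rw [eval_T, eval_T] at this
    exact (Quotient.exact this) s
  · intro h ρ
    obtain ⟨ρ', hρ⟩ : ∃ ρ' : ℕ → MSet, ρ = fun n => Quotient.mk (syn K) (ρ' n) :=
      ⟨fun n => (ρ n).out, funext fun n => (Quotient.out_eq (ρ n)).symm⟩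
    subst hρ
    rw [eval_T, eval_T]
    exact Quotient.sound (h ρ')

/-! ### Linear functionals on monomials -/

/-- The additive functional with weights `f`. -/
def lam (f : ℕ → ℕ) (u : Multiset ℕ) : ℕ := (u.map f).sum

theorem lam_add (f : ℕ → ℕ) (u v : Multiset ℕ) : lam f (u + v) = lam f u + lam f v := by
  simp [lam]

theorem lam_zero (f : ℕ → ℕ) : lam f 0 = 0 := by simp [lam]

theorem lam_coe (f : ℕ → ℕ) (l : List ℕ) : lam f (l : Multiset ℕ) = (l.map f).sum := by
  simp [lam]

theorem lam_list_sum (f : ℕ → ℕ) (l : List (Multiset ℕ)) :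
    lam f l.sum = (l.map (lam f)).sum := by
  induction l with
  | nil => simp [lam_zero]
  | cons a l ih => simp [lam_add, ih]

theorem lam_map_sum (f : ℕ → ℕ) (g : ℕ → Multiset ℕ) (p : List ℕ) :
    lam f (p.map g).sum = (p.map fun x => lam f (g x)).sum := by
  rw [lam_list_sum, List.map_map]
  rfl

theorem two_le_lam {f : ℕ → ℕ} {u : Multiset ℕ} {v1 v2 : ℕ} (h : v1 ≠ v2) (h1 : v1 ∈ u)
    (h2 : v2 ∈ u) (f1 : f v1 = 1) (f2 : f v2 = 1) : 2 ≤ lam f u := by
  obtain ⟨u', rfl⟩ := Multiset.exists_cons_of_mem h1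
  have h3 : v2 ∈ u' := by
    rcases Multiset.mem_cons.1 h2 with h3 | h3
    · exact absurd h3.symm h
    · exact h3
  obtain ⟨u'', rfl⟩ := Multiset.exists_cons_of_mem h3
  simp [lam, f1, f2]
  omega

theorem sum_update (a : ℕ → ℕ) (x c : ℕ) (p : List ℕ) :
    (p.map (Function.update a x c)).sum + p.count x * a x = (p.map a).sum + p.count x * c := by
  induction p with
  | nil => simp
  | cons y p ih =>
    by_cases h : y = x
    · subst h
      simp only [List.map_cons, List.sum_cons, Function.update_self, List.count_cons_self]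
      have : (List.count y p + 1) * a y = List.count y p * a y + a y := by ring
      have : (List.count y p + 1) * c = List.count y p * c + c := by ring
      omega
    · simp only [List.map_cons, List.sum_cons, Function.update_of_ne h]
      rw [List.count_cons_of_ne h]
      omega

/-! ### Evaluation of words in `S₇⁰` -/

theorem wval_zero {τ : ℕ → E4} {p : List ℕ} {x : ℕ} (hx : x ∈ p) (h : τ x = .zero) :
    wval τ p = .zero := by
  induction p with
  | nil => simp at hx
  | cons y p ih =>
    rcases List.mem_cons.1 hx with rfl | hx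
    · rw [wval, h]; rfl
    · rw [wval, ih hx]
      generalize τ y = c
      revert c; decide

theorem wval_one {τ : ℕ → E4} {p : List ℕ} (h : ∀ x ∈ p, τ x = .one) : wval τ p = .one := by
  induction p with
  | nil => rfl
  | cons y p ih =>
    rw [wval, h y (by simp), ih fun x hx => h x (by simp [hx])]
    rfl

theorem E4.mul_ne : ∀ c d, c ≠ E4.zero → d ≠ .zero → E4.mul c d ≠ .zero := by decide
theorem E4.t_mul : ∀ d, d ≠ E4.zero → E4.mul .t d = .t := by decide
theorem E4.mul_t : ∀ c, c ≠ E4.zero → E4.mul c .t = .t := by decide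

theorem wval_ne_zero {τ : ℕ → E4} {p : List ℕ} (h : ∀ x ∈ p, τ x ≠ .zero) :
    wval τ p ≠ .zero := by
  induction p with
  | nil => simp [wval]
  | cons y p ih =>
    rw [wval]
    exact E4.mul_ne _ _ (h y (by simp)) (ih fun x hx => h x (by simp [hx]))

theorem wval_t {τ : ℕ → E4} {p : List ℕ} (h : ∀ x ∈ p, τ x ≠ .zero) {x : ℕ} (hx : x ∈ p)
    (ht : τ x = .t) : wval τ p = .t := by
  induction p with
  | nil => simp at hx
  | cons y p ih =>
    rw [wval]
    rcases List.mem_cons.1 hx with rfl | hx
    · rw [ht]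
      exact E4.t_mul _ (wval_ne_zero fun x hx => h x (by simp [hx]))
    · rw [ih (fun x hx => h x (by simp [hx])) hx]
      exact E4.mul_t _ (h y (by simp))

theorem wval_count {τ : ℕ → E4} {a : ℕ → ℕ} {p : List ℕ}
    (h : ∀ x ∈ p, a x ≤ 1 ∧ τ x = if a x = 0 then .one else .a) :
    wval τ p = if (p.map a).sum = 0 then .one else if (p.map a).sum = 1 then .a else .t := by
  induction p with
  | nil => simp [wval]
  | cons y p ih =>
    rw [wval, ih fun x hx => h x (by simp [hx])]
    obtain ⟨h1, h2⟩ := h y (by simp)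
    rw [h2]
    simp only [List.map_cons, List.sum_cons]
    generalize (p.map a).sum = S
    generalize a y = c at *
    have hc : c = 0 ∨ c = 1 := by omega
    rcases hc with rfl | rfl
    · simp only [if_true, E4.one_mul, zero_add]
    · rcases Nat.lt_or_ge S 1 with hS | hS
      · have : S = 0 := by omega
        subst this
        simp [E4.mul]
      · have e1 : ¬ S = 0 := by omega
        have e2 : ¬ 1 + S = 0 := by omega
        have e3 : ¬ 1 + S = 1 := by omega
        simp only [e1, e2, e3, if_false, one_ne_zero]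
        split_ifs <;> rfl

theorem not_t_le_one : ¬ le .t .one := by decide
theorem not_t_le_a : ¬ le .t .a := by decide
theorem not_one_le_a : ¬ le .one .a := by decide
theorem zero_le_any : ∀ c, le .zero c := by decide
theorem le_refl' : ∀ c, le c c := by decide

/-- Contents of words in identities of `S₇⁰`. -/
theorem content {l r : Term} (h : Sat S70 (l, r)) {w : List ℕ} (hw : w ∈ words r) {x0 : ℕ}
    (hx : x0 ∈ w) : ∃ p ∈ words l, (∀ x ∈ p, x ∈ w) ∧ x0 ∈ p := by
  by_contra hcon
  push Not at hcon
  let τ : ℕ → E4 := fun x => if x ∈ w then (if x = x0 then .t else .one) else .zero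
  have h1 : wval τ w = .t := by
    apply wval_t (x := x0) _ hx
    · simp [τ, hx]
    · intro x hx
      simp only [τ, if_pos hx]
      split_ifs <;> simp
  have h2 : le (eval S70 τ l) .one := by
    apply eval_le
    intro p hp
    by_cases hsub : ∀ x ∈ p, x ∈ w
    · have h3 := hcon p hp hsub
      rw [wval_one]
      · exact le_refl' _
      · intro x hxp
        have : x ≠ x0 := fun hh => h3 (hh ▸ hxp)
        simp [τ, hsub x hxp, this]
    · push Not at hsub
      obtain ⟨x, hxp, hxw⟩ := hsub
      rw [wval_zero hxp (by simp [τ, hxw])]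
      exact zero_le_any _
  have h3 := word_le τ r w hw
  have h4 : eval S70 τ l = eval S70 τ r := h τ
  rw [h1, ← h4] at h3
  exact not_t_le_one (le_trans' _ _ _ h3 h2)

theorem le_sum_of_mem' {a : ℕ → ℕ} {p : List ℕ} {x : ℕ} (hx : x ∈ p) :
    a x ≤ (p.map a).sum := List.single_le_sum (by simp) _ (List.mem_map_of_mem hx)

/-- The transfer of functionals. -/
theorem functional {l r : Term} (h : Sat S70 (l, r)) {w : List ℕ} (hw : w ∈ words r)
    {ms : List (Multiset ℕ)} (hlen : ms.length = w.length) (s : Multiset ℕ) (f : ℕ → ℕ)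
    (hF : ∀ p ∈ words l, (∀ x ∈ p, x ∈ w) → ∀ g : ℕ → Multiset ℕ,
      (∀ x ∈ w, (g x, x) ∈ ms.zip w) → lam f (s + (p.map g).sum) = 1) :
    lam f (s + ms.sum) = 1 := by
  have hne := words_ne r w hw
  have hex : ∀ x ∈ w, ∃ m, (m, x) ∈ ms.zip w := by
    intro x hx
    obtain ⟨i, hi, rfl⟩ := List.mem_iff_getElem.1 hx
    refine ⟨ms[i]'(by omega), ?_⟩
    rw [List.mem_iff_getElem]
    exact ⟨i, by simp [hlen, hi], by simp⟩
  choose! g0 hg0 using hex
  let a : ℕ → ℕ := fun x => lam f (g0 x)
  have h2 : ∀ p ∈ words l, (∀ x ∈ p, x ∈ w) → lam f s + (p.map a).sum = 1 := by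
    intro p hp hsub
    have := hF p hp hsub g0 hg0
    rwa [lam_add, lam_map_sum] at this
  have h1 : ∀ m x, (m, x) ∈ ms.zip w → lam f m = a x := by
    intro m x hmx
    have hx : x ∈ w := (List.of_mem_zip hmx).2
    obtain ⟨p, hp, hsub, hxp⟩ := content h hw hx
    have e1 := h2 p hp hsub
    have e2 := hF p hp hsub (Function.update g0 x m) (by
      intro y hy
      by_cases hyx : y = x
      · subst hyx; simpa using hmx
      · simpa [Function.update_of_ne hyx] using hg0 y hy)
    rw [lam_add, lam_map_sum] at e2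
    have e3 : (fun y => lam f (Function.update g0 x m y)) = Function.update a x (lam f m) := by
      ext y
      by_cases hyx : y = x
      · subst hyx; simp
      · simp [Function.update_of_ne hyx, a]
    rw [e3] at e2
    have e4 := sum_update a x (lam f m) p
    have e5 : (p.map (Function.update a x (lam f m))).sum = (p.map a).sum := by omega
    rw [e5] at e4
    have e6 : p.count x * a x = p.count x * lam f m := by omega
    have e7 : 0 < p.count x := List.count_pos_iff.2 hxp
    exact (Nat.eq_of_mul_eq_mul_left e7 e6).symm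
  have h3 : lam f ms.sum = (w.map a).sum := by
    rw [lam_list_sum]
    congr 1
    apply List.ext_getElem
    · simp [hlen]
    · intro i hi1 hi2
      simp only [List.length_map] at hi1 hi2
      simp only [List.getElem_map]
      apply h1
      rw [List.mem_iff_getElem]
      exact ⟨i, by simp [hi1, hi2], by simp⟩
  obtain ⟨x1, hx1⟩ := List.exists_mem_of_ne_nil w hne
  obtain ⟨p1, hp1, hsub1, _⟩ := content h hw hx1
  have hs1 := h2 p1 hp1 hsub1
  rw [lam_add, h3]
  have ha : ∀ x ∈ w, a x + lam f s ≤ 1 := by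
    intro x hx
    obtain ⟨p, hp, hsub, hxp⟩ := content h hw hx
    have := h2 p hp hsub
    have := le_sum_of_mem' (a := a) hxp
    omega
  by_cases hs : lam f s = 0
  · let τ : ℕ → E4 := fun x => if x ∈ w then (if a x = 0 then .one else .a) else .zero
    have e1 : le (eval S70 τ l) .a := by
      apply eval_le
      intro p hp
      by_cases hsub : ∀ x ∈ p, x ∈ w
      · rw [wval_count (a := a)]
        · have := h2 p hp hsub
          have h4 : (p.map a).sum = 1 := by omega
          rw [h4]
          simp only [one_ne_zero, if_false, if_true]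
          exact le_refl' _
        · intro x hx
          refine ⟨?_, ?_⟩
          · have := ha x (hsub x hx); omega
          · simp only [τ, if_pos (hsub x hx)]
      · push Not at hsub
        obtain ⟨x, hxp, hxw⟩ := hsub
        rw [wval_zero hxp (by simp [τ, hxw])]
        exact zero_le_any _
    have e2 := word_le τ r w hw
    have e3 : eval S70 τ l = eval S70 τ r := h τ
    rw [← e3] at e2
    have e4 := le_trans' _ _ _ e2 e1
    rw [wval_count (a := a)] at e4
    · by_cases z0 : (w.map a).sum = 0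
      · rw [if_pos z0] at e4
        exact absurd e4 not_one_le_a
      · by_cases z1 : (w.map a).sum = 1
        · omega
        · rw [if_neg z0, if_neg z1] at e4
          exact absurd e4 not_t_le_a
    · intro x hx
      refine ⟨?_, ?_⟩
      · have := ha x hx; omega
      · simp only [τ, if_pos hx]
  · have hz : ∀ x ∈ w, a x = 0 := by
      intro x hx
      have := ha x hx
      omega
    have : (w.map a).sum = 0 := by
      apply List.sum_eq_zero
      intro y hy
      obtain ⟨x, hx, rfl⟩ := List.mem_map.1 hy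
      exact hz x hx
    omega

/-! ### The hypergraphs -/

/-- The vertices other than the centre `1` (and the extra variable `0`). -/
def b (i j : ℕ) : ℕ := Nat.pair i j + 2

/-- The star edges: the centre and the `i`-th block. -/
def starL (n i : ℕ) : List ℕ := 1 :: (List.range (n - 1)).map (b i)

/-- The transversal edge. -/
def dL (n : ℕ) : List ℕ := (List.range n).map (fun i => b i 0)

/-- All vertices. -/
def allL (n : ℕ) : List ℕ := 1 :: (List.range n).flatMap fun i => (List.range (n - 1)).map (b i)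

/-- The edges, as monomials. -/
def Edge (n : ℕ) (u : Multiset ℕ) : Prop :=
  (∃ i < n, u = (starL n i : Multiset ℕ)) ∨ u = (dL n : Multiset ℕ)

/-- The set of monomials defining the syntactic semiring. -/
def K (n : ℕ) : Set (Multiset ℕ) := {u | 0 ∈ u ∨ Edge n u}

theorem b_inj {i j i' j' : ℕ} (h : b i j = b i' j') : i = i' ∧ j = j' := by
  unfold b at h
  have h' : Nat.pair i j = Nat.pair i' j' := by omega
  exact Nat.pair_eq_pair.1 h'

theorem b_ne_zero (i j : ℕ) : b i j ≠ 0 := by unfold b; omega
theorem b_ne_one (i j : ℕ) : b i j ≠ 1 := by unfold b; omega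

theorem mem_starL {n i v : ℕ} : v ∈ starL n i ↔ v = 1 ∨ ∃ j < n - 1, v = b i j := by
  simp only [starL, List.mem_cons, List.mem_map, List.mem_range]
  constructor
  · rintro (h | ⟨j, hj, rfl⟩)
    · exact Or.inl h
    · exact Or.inr ⟨j, hj, rfl⟩
  · rintro (h | ⟨j, hj, rfl⟩)
    · exact Or.inl h
    · exact Or.inr ⟨j, hj, rfl⟩

theorem mem_dL {n v : ℕ} : v ∈ dL n ↔ ∃ i < n, v = b i 0 := by
  simp only [dL, List.mem_map, List.mem_range]
  constructor
  · rintro ⟨i, hi, rfl⟩; exact ⟨i, hi, rfl⟩
  · rintro ⟨i, hi, rfl⟩; exact ⟨i, hi, rfl⟩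

theorem mem_allL {n v : ℕ} : v ∈ allL n ↔ v = 1 ∨ ∃ i < n, ∃ j < n - 1, v = b i j := by
  simp only [allL, List.mem_cons, List.mem_flatMap, List.mem_map, List.mem_range]
  constructor
  · rintro (h | ⟨i, hi, j, hj, rfl⟩)
    · exact Or.inl h
    · exact Or.inr ⟨i, hi, j, hj, rfl⟩
  · rintro (h | ⟨i, hi, j, hj, rfl⟩)
    · exact Or.inl h
    · exact Or.inr ⟨i, hi, j, hj, rfl⟩

theorem nodup_starL (n i : ℕ) : (starL n i).Nodup := by
  unfold starL
  rw [List.nodup_cons]
  refine ⟨?_, ?_⟩
  · simp only [List.mem_map, not_exists, not_and]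
    intro j _ h
    exact b_ne_one _ _ h
  · apply List.Nodup.map
    · intro j j' h
      exact (b_inj h).2
    · exact List.nodup_range

theorem nodup_dL (n : ℕ) : (dL n).Nodup := by
  unfold dL
  apply List.Nodup.map
  · intro j j' h
    exact (b_inj h).1
  · exact List.nodup_range

theorem nodup_allL (n : ℕ) : (allL n).Nodup := by
  unfold allL
  rw [List.nodup_cons]
  refine ⟨?_, ?_⟩
  · simp only [List.mem_flatMap, List.mem_map, not_exists, not_and]
    intro i _ j _ h
    exact b_ne_one _ _ h
  · rw [List.nodup_flatMap]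
    refine ⟨?_, ?_⟩
    · intro i _
      apply List.Nodup.map
      · intro j j' h
        exact (b_inj h).2
      · exact List.nodup_range
    · have : (List.range n).Pairwise (· ≠ ·) := List.nodup_range
      apply this.imp
      intro i i' hii
      change List.Disjoint _ _
      intro v h1 h2
      obtain ⟨j, _, rfl⟩ := List.mem_map.1 h1
      obtain ⟨j', _, h⟩ := List.mem_map.1 h2
      exact hii (b_inj h).1.symm

theorem Edge.nodup {n : ℕ} {u : Multiset ℕ} (h : Edge n u) : u.Nodup := by
  rcases h with ⟨i, _, rfl⟩ | rfl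
  · exact nodup_starL n i
  · exact nodup_dL n

theorem Edge.card {n : ℕ} (hn : 1 ≤ n) {u : Multiset ℕ} (h : Edge n u) : u.card = n := by
  rcases h with ⟨i, _, rfl⟩ | rfl
  · simp [starL]; omega
  · simp [dL]

theorem Edge.zero_notMem {n : ℕ} {u : Multiset ℕ} (h : Edge n u) : 0 ∉ u := by
  rcases h with ⟨i, _, rfl⟩ | rfl
  · intro h
    rcases mem_starL.1 h with h | ⟨j, _, h⟩
    · exact absurd h (by norm_num)
    · exact b_ne_zero _ _ h.symm
  · intro h
    obtain ⟨j, _, h⟩ := mem_dL.1 h
    exact b_ne_zero _ _ h.symm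

/-- The indicator of the hitting set `{b i (c i)}`. -/
def fc (c : ℕ → ℕ) (v : ℕ) : ℕ :=
  if v < 2 then 0 else if (Nat.unpair (v - 2)).2 = c (Nat.unpair (v - 2)).1 then 1 else 0

theorem fc_b (c : ℕ → ℕ) (i j : ℕ) : fc c (b i j) = if j = c i then 1 else 0 := by
  unfold fc b
  rw [if_neg (by omega), Nat.add_sub_cancel, Nat.unpair_pair]

theorem fc_one (c : ℕ → ℕ) : fc c 1 = 0 := by simp [fc]

theorem sum_range_ite (n k : ℕ) (h : k < n) :
    ((List.range n).map fun j => if j = k then 1 else 0).sum = 1 := by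
  induction n with
  | zero => omega
  | succ n ih =>
    rw [List.range_succ, List.map_append, List.sum_append]
    simp only [List.map_cons, List.map_nil, List.sum_cons, List.sum_nil, add_zero]
    by_cases hk : n = k
    · subst hk
      rw [if_pos rfl]
      have : ((List.range n).map fun j => if j = n then 1 else 0).sum = 0 := by
        apply List.sum_eq_zero
        intro x hx
        obtain ⟨j, hj, rfl⟩ := List.mem_map.1 hx
        rw [List.mem_range] at hj
        rw [if_neg (by omega)]
      rw [this]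
    · rw [if_neg hk, ih (by omega)]

theorem exact_fc {n : ℕ} {c : ℕ → ℕ} {k : ℕ} (hk : k < n) (hc0 : c k = 0)
    (hc : ∀ i, i < n → i ≠ k → 1 ≤ c i ∧ c i < n - 1) (hn : 2 ≤ n) {u : Multiset ℕ}
    (h : Edge n u) : lam (fc c) u = 1 := by
  rcases h with ⟨i, hi, rfl⟩ | rfl
  · rw [lam_coe]
    unfold starL
    rw [List.map_cons, List.sum_cons, fc_one, List.map_map, zero_add]
    have : (fc c ∘ b i) = fun j => if j = c i then 1 else 0 := by
      ext j; exact fc_b c i j
    rw [this]
    apply sum_range_ite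
    by_cases hik : i = k
    · subst hik; omega
    · exact (hc i hi hik).2
  · rw [lam_coe]
    unfold dL
    rw [List.map_map]
    have : (List.range n).map (fc c ∘ fun i => b i 0) =
        (List.range n).map fun j => if j = k then 1 else 0 := by
      apply List.map_congr_left
      intro i hi
      rw [List.mem_range] at hi
      simp only [Function.comp]
      rw [fc_b]
      by_cases hik : i = k
      · subst hik; rw [hc0]; simp
      · have := (hc i hi hik).1
        rw [if_neg (by omega), if_neg hik]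
    rw [this]
    exact sum_range_ite n k hk

/-- Two different edges contain two vertices of a common exact hitting set. -/
theorem two_edges {n : ℕ} (hn : 3 ≤ n) {u u' : Multiset ℕ} (h : Edge n u) (h' : Edge n u')
    (hne : u ≠ u') : ∃ (c : ℕ → ℕ) (v1 v2 : ℕ), v1 ≠ v2 ∧ (v1 ∈ u ∨ v1 ∈ u') ∧ (v2 ∈ u ∨ v2 ∈ u') ∧
      fc c v1 = 1 ∧ fc c v2 = 1 ∧ ∀ w, Edge n w → lam (fc c) w = 1 := by
  have key : ∀ k, k < n → ∀ w, Edge n w → lam (fc fun i => if i = k then 0 else 1) w = 1 := by
    intro k hk w hw
    apply exact_fc hk (by simp) _ (by omega) hw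
    intro i _ hik
    simp only [if_neg hik]
    omega
  have star_d : ∀ i, i < n → ∃ k, k < n ∧ k ≠ i := by
    intro i _
    by_cases h : i = 0
    · exact ⟨1, by omega, by omega⟩
    · exact ⟨0, by omega, by omega⟩
  rcases h with ⟨i, hi, rfl⟩ | rfl <;> rcases h' with ⟨j, hj, rfl⟩ | rfl
  · have hij : i ≠ j := fun h => hne (by rw [h])
    refine ⟨fun l => if l = i then 0 else 1, b i 0, b j 1, ?_, ?_, ?_, ?_, ?_, key i hi⟩
    · intro h; exact hij (b_inj h).1
    · left; exact mem_starL.2 (Or.inr ⟨0, by omega, rfl⟩)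
    · right; exact mem_starL.2 (Or.inr ⟨1, by omega, rfl⟩)
    · rw [fc_b]; simp
    · rw [fc_b]; simp [hij.symm]
  · obtain ⟨k, hk, hki⟩ := star_d i hi
    refine ⟨fun l => if l = k then 0 else 1, b k 0, b i 1, ?_, ?_, ?_, ?_, ?_, key k hk⟩
    · intro h; exact hki (b_inj h).1
    · right; exact mem_dL.2 ⟨k, hk, rfl⟩
    · left; exact mem_starL.2 (Or.inr ⟨1, by omega, rfl⟩)
    · rw [fc_b]; simp
    · rw [fc_b]; simp [hki.symm]
  · obtain ⟨k, hk, hki⟩ := star_d j hj
    refine ⟨fun l => if l = k then 0 else 1, b k 0, b j 1, ?_, ?_, ?_, ?_, ?_, key k hk⟩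
    · intro h; exact hki (b_inj h).1
    · left; exact mem_dL.2 ⟨k, hk, rfl⟩
    · right; exact mem_starL.2 (Or.inr ⟨1, by omega, rfl⟩)
    · rw [fc_b]; simp
    · rw [fc_b]; simp [hki.symm]
  · exact absurd rfl hne

/-! ### The syntactic semirings lie in the variety of `S₇⁰` -/

theorem mem_choices_map {ρ : ℕ → Set (Multiset ℕ)} {p : List ℕ} {g : ℕ → Multiset ℕ}
    (h : ∀ x ∈ p, g x ∈ ρ x) : (p.map g).sum ∈ choices ρ p := by
  refine ⟨p.map g, ?_, rfl⟩
  induction p with
  | nil => exact List.Forall₂.nil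
  | cons x p ih =>
    exact List.Forall₂.cons (h x (by simp)) (ih fun y hy => h y (by simp [hy]))

theorem mem_list_sum {l : List (Multiset ℕ)} {v : ℕ} : v ∈ l.sum ↔ ∃ m ∈ l, v ∈ m := by
  induction l with
  | nil => simp
  | cons a l ih => simp [ih]

theorem lam_single (v : ℕ) (u : Multiset ℕ) : lam (fun x => if x = v then 1 else 0) u = u.count v := by
  induction u using Multiset.induction_on with
  | empty => simp [lam]
  | cons a u ih =>
    rw [← Multiset.singleton_add, lam_add, ih, Multiset.count_add, Multiset.count_singleton]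
    congr 1
    simp only [lam, Multiset.map_singleton, Multiset.sum_singleton]
    by_cases h : a = v
    · simp [h]
    · simp [h, Ne.symm h]

theorem T_aux {n : ℕ} (hn : 3 ≤ n) {l r : Term} (h : Sat S70 (l, r)) (ρ : ℕ → MSet)
    (s : Multiset ℕ) (hl : ∀ u ∈ (evalM ρ l).1, s + u ∈ K n) :
    ∀ u ∈ (evalM ρ r).1, s + u ∈ K n := by
  intro u hu
  obtain ⟨w, hw, ms, hms, rfl⟩ := (mem_evalM ρ r u).1 hu
  have hlen : ms.length = w.length := hms.length_eq
  have hzip : ∀ {m : Multiset ℕ} {x : ℕ}, (m, x) ∈ ms.zip w → m ∈ (ρ x).1 :=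
    fun {m} {x} hh => (List.forall₂_iff_zip.1 hms).2 hh
  by_cases h0 : 0 ∈ s + ms.sum
  · exact Or.inl h0
  have hs0 : 0 ∉ s := fun hh => h0 (Multiset.mem_add.2 (Or.inl hh))
  have hm0 : ∀ m ∈ ms, 0 ∉ m := fun m hm hh =>
    h0 (Multiset.mem_add.2 (Or.inr (mem_list_sum.2 ⟨m, hm, hh⟩)))
  -- the images
  have hF : ∀ p ∈ words l, (∀ x ∈ p, x ∈ w) → ∀ g : ℕ → Multiset ℕ,
      (∀ x ∈ w, (g x, x) ∈ ms.zip w) → Edge n (s + (p.map g).sum) := by
    intro p hp hsub g hg
    have h1 : (p.map g).sum ∈ (evalM ρ l).1 := by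
      rw [mem_evalM]
      exact ⟨p, hp, mem_choices_map fun x hx => hzip (hg x (hsub x hx))⟩
    rcases hl _ h1 with h2 | h2
    · exfalso
      rcases Multiset.mem_add.1 h2 with h3 | h3
      · exact hs0 h3
      · obtain ⟨m, hm, h4⟩ := mem_list_sum.1 h3
        obtain ⟨x, hx, rfl⟩ := List.mem_map.1 hm
        exact hm0 _ (List.of_mem_zip (hg x (hsub x hx))).1 h4
    · exact h2
  have hsubset : ∀ p ∈ words l, (∀ x ∈ p, x ∈ w) → ∀ g : ℕ → Multiset ℕ,
      (∀ x ∈ w, (g x, x) ∈ ms.zip w) → ∀ v ∈ s + (p.map g).sum, v ∈ s + ms.sum := by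
    intro p hp hsub g hg v hv
    rcases Multiset.mem_add.1 hv with h3 | h3
    · exact Multiset.mem_add.2 (Or.inl h3)
    · obtain ⟨m, hm, h4⟩ := mem_list_sum.1 h3
      obtain ⟨x, hx, rfl⟩ := List.mem_map.1 hm
      exact Multiset.mem_add.2 (Or.inr (mem_list_sum.2
        ⟨_, (List.of_mem_zip (hg x (hsub x hx))).1, h4⟩))
  have hfun := fun f => functional h hw hlen s f
  -- all images coincide
  have huniq : ∀ p ∈ words l, (∀ x ∈ p, x ∈ w) → ∀ g : ℕ → Multiset ℕ,
      (∀ x ∈ w, (g x, x) ∈ ms.zip w) → ∀ p' ∈ words l, (∀ x ∈ p', x ∈ w) →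
      ∀ g' : ℕ → Multiset ℕ, (∀ x ∈ w, (g' x, x) ∈ ms.zip w) →
      s + (p.map g).sum = s + (p'.map g').sum := by
    intro p hp hsub g hg p' hp' hsub' g' hg'
    by_contra hne
    obtain ⟨c, v1, v2, hv, m1, m2, f1, f2, hex⟩ :=
      two_edges hn (hF p hp hsub g hg) (hF p' hp' hsub' g' hg') hne
    have e1 := hfun (fc c) (fun p hp hsub g hg => hex _ (hF p hp hsub g hg))
    have n1 : v1 ∈ s + ms.sum := by
      rcases m1 with m1 | m1
      · exact hsubset p hp hsub g hg _ m1
      · exact hsubset p' hp' hsub' g' hg' _ m1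
    have n2 : v2 ∈ s + ms.sum := by
      rcases m2 with m2 | m2
      · exact hsubset p hp hsub g hg _ m2
      · exact hsubset p' hp' hsub' g' hg' _ m2
    have := two_le_lam hv n1 n2 f1 f2
    omega
  -- pick one image
  have hex : ∀ x ∈ w, ∃ m, (m, x) ∈ ms.zip w := by
    intro x hx
    obtain ⟨i, hi, rfl⟩ := List.mem_iff_getElem.1 hx
    refine ⟨ms[i]'(by omega), ?_⟩
    rw [List.mem_iff_getElem]
    exact ⟨i, by simp [hlen, hi], by simp⟩
  choose! g0 hg0 using hex
  obtain ⟨x1, hx1⟩ := List.exists_mem_of_ne_nil w (words_ne r w hw)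
  obtain ⟨p1, hp1, hsub1, _⟩ := content h hw hx1
  have hE := hF p1 hp1 hsub1 g0 hg0
  set E := s + (p1.map g0).sum with hEdef
  have hall : ∀ v ∈ s + ms.sum, v ∈ E := by
    intro v hv
    rcases Multiset.mem_add.1 hv with h3 | h3
    · exact Multiset.mem_add.2 (Or.inl h3)
    · obtain ⟨m, hm, h4⟩ := mem_list_sum.1 h3
      obtain ⟨i, hi, rfl⟩ := List.mem_iff_getElem.1 hm
      have hiw : i < w.length := by omega
      have hmem : (ms[i], w[i]) ∈ ms.zip w := by
        rw [List.mem_iff_getElem]
        exact ⟨i, by simp [hi, hiw], by simp⟩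
      obtain ⟨p, hp, hsub, hxp⟩ := content h hw (List.getElem_mem hiw)
      have hg' : ∀ x ∈ w, (Function.update g0 (w[i]) (ms[i]) x, x) ∈ ms.zip w := by
        intro y hy
        by_cases hyx : y = w[i]
        · subst hyx; simpa using hmem
        · simpa [Function.update_of_ne hyx] using hg0 y hy
      have h5 := huniq p1 hp1 hsub1 g0 hg0 p hp hsub _ hg'
      rw [hEdef, h5]
      apply Multiset.mem_add.2
      right
      apply mem_list_sum.2
      refine ⟨ms[i], ?_, h4⟩
      exact List.mem_map.2 ⟨w[i], hxp, by simp⟩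
  right
  have hfinal : s + ms.sum = E := by
    apply Multiset.ext.2
    intro v
    by_cases hv : v ∈ E
    · have h1 : Multiset.count v E = 1 := Multiset.count_eq_one_of_mem hE.nodup hv
      have h2 := hfun (fun x => if x = v then 1 else 0) (fun p hp hsub g hg => by
        rw [lam_single, huniq p hp hsub g hg p1 hp1 hsub1 g0 hg0]
        exact h1)
      rw [lam_single] at h2
      rw [h1, h2]
    · rw [Multiset.count_eq_zero_of_notMem hv, Multiset.count_eq_zero_of_notMem]
      exact fun hh => hv (hall v hh)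
  rw [hfinal]
  exact hE

theorem T_mem {n : ℕ} (hn : 3 ≤ n) : T (K n) ∈ gen S70 := by
  rw [mem_gen]
  intro e he
  rw [sat_T]
  intro ρ s
  constructor
  · exact T_aux hn (l := e.1) (r := e.2) he ρ s
  · exact T_aux hn (l := e.2) (r := e.1) (fun ρ => (he ρ).symm) ρ s

/-! ### The identities -/

/-- The product of a nonempty list of variables. -/
def prodT : List ℕ → Term
  | [] => .var 0
  | [x] => .var x
  | x :: y :: l => .mul (.var x) (prodT (y :: l))

/-- The sum of a nonempty list of terms. -/
def sumT : List Term → Term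
  | [] => .var 0
  | [t] => t
  | t :: t' :: l => .add t (sumT (t' :: l))

theorem words_prodT : ∀ (l : List ℕ), l ≠ [] → words (prodT l) = {l}
  | [], h => absurd rfl h
  | [x], _ => rfl
  | x :: y :: l, _ => by
    have ih := words_prodT (y :: l) (by simp)
    ext w
    simp only [prodT, words, ih, Set.mem_singleton_iff, Set.mem_ofPred_eq, exists_eq_left]
    simp

theorem words_sumT : ∀ (l : List Term), l ≠ [] → words (sumT l) = {w | ∃ t ∈ l, w ∈ words t}
  | [], h => absurd rfl h
  | [t], _ => by ext w; simp [sumT]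
  | t :: t' :: l, _ => by
    have ih := words_sumT (t' :: l) (by simp)
    ext w
    simp only [sumT, words, ih, Set.mem_union, Set.mem_ofPred_eq, List.mem_cons,
      exists_eq_or_imp]

/-- The sum of the edges and of `x₀²`. -/
def PT (n : ℕ) : Term :=
  .add (sumT ((List.range n).map fun i => prodT (starL n i))) (.add (prodT (dL n)) (prodT [0, 0]))

/-- The product of all vertices. -/
def qT (n : ℕ) : Term := prodT (allL n)

/-- The identity `P + q ≈ P`. -/
def ident (n : ℕ) : Term × Term := (.add (PT n) (qT n), PT n)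

theorem words_qT (n : ℕ) : words (qT n) = {allL n} := words_prodT _ (by simp [allL])

theorem mem_words_PT {n : ℕ} (hn : 3 ≤ n) {w : List ℕ} :
    w ∈ words (PT n) ↔ (∃ i < n, w = starL n i) ∨ w = dL n ∨ w = [0, 0] := by
  have h1 : dL n ≠ [] := by
    intro h
    have := congrArg List.length h
    simp [dL] at this
    omega
  have h2 : (List.range n).map (fun i => prodT (starL n i)) ≠ [] := by
    intro h
    have := congrArg List.length h
    simp at this
    omega
  change w ∈ words (sumT _) ∪ (words (prodT (dL n)) ∪ words (prodT [0, 0])) ↔ _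
  rw [words_sumT _ h2, words_prodT _ h1, words_prodT [0, 0] (by simp)]
  simp only [Set.mem_union, Set.mem_ofPred_eq, List.mem_map, List.mem_range,
    Set.mem_singleton_iff]
  constructor
  · rintro (⟨t, ⟨i, hi, rfl⟩, hw⟩ | h | h)
    · rw [words_prodT _ (by simp [starL])] at hw
      exact Or.inl ⟨i, hi, hw⟩
    · exact Or.inr (Or.inl h)
    · exact Or.inr (Or.inr h)
  · rintro (⟨i, hi, rfl⟩ | h | h)
    · exact Or.inl ⟨_, ⟨i, hi, rfl⟩, by rw [words_prodT _ (by simp [starL])]; rfl⟩
    · exact Or.inr (Or.inl h)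
    · exact Or.inr (Or.inr h)

theorem eq_one_of_mul : ∀ c d : E4, E4.mul c d = .one → c = .one ∧ d = .one := by decide

theorem wval_eq_one {τ : ℕ → E4} {p : List ℕ} (h : wval τ p = .one) : ∀ x ∈ p, τ x = .one := by
  induction p with
  | nil => simp
  | cons y p ih =>
    obtain ⟨h1, h2⟩ := eq_one_of_mul _ _ h
    intro x hx
    rcases List.mem_cons.1 hx with rfl | hx
    · exact h1
    · exact ih h2 x hx

theorem le_t : ∀ c, le c .t := by decide
theorem le_one_cases : ∀ c, le c .one → c = .zero ∨ c = .one := by decide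
theorem le_zero_cases : ∀ c, le c .zero → c = .zero := by decide
theorem sq_not_le : ∀ c, c ≠ E4.zero → ¬ le (E4.mul c (E4.mul c .one)) .a := by decide
theorem add_eq_of_le : ∀ x y, le y x → E4.add x y = x := by decide

theorem emb_ne_zero : ∀ c : E3, emb c ≠ E4.zero := by decide

theorem S7_ident {n : ℕ} (hn : 3 ≤ n) : Sat S7 (ident n) := by
  intro ρ
  apply emb_inj
  rw [emb_eval, emb_eval]
  set τ : ℕ → E4 := fun x => emb (ρ x) with hτ
  have hz : ∀ x, τ x ≠ .zero := by
    intro x
    exact emb_ne_zero (ρ x)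
  change E4.add (eval S70 τ (PT n)) (eval S70 τ (qT n)) = eval S70 τ (PT n)
  apply add_eq_of_le
  have hw := word_le τ (PT n)
  have hsq := hw [0, 0] ((mem_words_PT hn).2 (Or.inr (Or.inr rfl)))
  generalize eval S70 τ (PT n) = V at *
  cases V with
  | zero =>
    exact absurd (le_zero_cases _ hsq) (wval_ne_zero fun x _ => hz x)
  | t => exact le_t _
  | a => exact absurd hsq (sq_not_le _ (hz 0))
  | one =>
    apply eval_le
    intro w hwq
    rw [words_qT, Set.mem_singleton_iff] at hwq
    subst hwq
    rw [wval_one]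
    · exact le_refl' _
    · have key : ∀ i < n, ∀ x ∈ starL n i, τ x = .one := by
        intro i hi
        have h1 := hw (starL n i) ((mem_words_PT hn).2 (Or.inl ⟨i, hi, rfl⟩))
        rcases le_one_cases _ h1 with h | h
        · exact absurd h (wval_ne_zero fun x _ => hz x)
        · exact wval_eq_one h
      intro x hx
      rcases mem_allL.1 hx with rfl | ⟨i, hi, j, hj, rfl⟩
      · exact key 0 (by omega) 1 (mem_starL.2 (Or.inl rfl))
      · exact key i hi _ (mem_starL.2 (Or.inr ⟨j, hj, rfl⟩))

theorem choices_single {w : List ℕ} {u : Multiset ℕ}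
    (h : u ∈ choices (fun x => ({({x} : Multiset ℕ)} : Set (Multiset ℕ))) w) :
    u = (w : Multiset ℕ) := by
  obtain ⟨ms, h, rfl⟩ := h
  induction h with
  | nil => simp
  | cons h1 _ ih =>
    rw [Set.mem_singleton_iff] at h1
    subst h1
    rw [List.sum_cons, ih]
    rfl

theorem T_not_ident {n : ℕ} (hn : 3 ≤ n) : ¬ Sat (T (K n)) (ident n) := by
  intro h
  rw [sat_T] at h
  let ρ : ℕ → MSet := fun x => ⟨{({x} : Multiset ℕ)}, by
    intro hh
    rw [Set.mem_singleton_iff] at hh
    exact Multiset.singleton_ne_zero x hh.symm⟩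
  have h1 := (h ρ 0).2 (by
    intro u hu
    rw [zero_add]
    obtain ⟨w, hw, hu⟩ := (mem_evalM _ _ _).1 hu
    have := choices_single hu
    subst this
    rcases (mem_words_PT hn).1 hw with ⟨i, hi, rfl⟩ | rfl | rfl
    · exact Or.inr (Or.inl ⟨i, hi, rfl⟩)
    · exact Or.inr (Or.inr rfl)
    · left; simp)
  have h2 : ((allL n : List ℕ) : Multiset ℕ) ∈ (evalM ρ (ident n).1).1 := by
    rw [mem_evalM]
    refine ⟨allL n, Or.inr (by rw [words_qT]; rfl), ?_⟩
    have := mem_choices_map (ρ := fun x => (ρ x).1) (p := allL n) (g := fun x => {x})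
      (fun x _ => rfl)
    have h3 : ((allL n).map fun x => ({x} : Multiset ℕ)).sum = (allL n : Multiset ℕ) := by
      induction allL n with
      | nil => simp
      | cons a l ih => rw [List.map_cons, List.sum_cons, ih]; rfl
    rw [h3] at this
    exact this
  have h3 := h1 _ h2
  rw [zero_add] at h3
  rcases h3 with h3 | h3
  · rcases mem_allL.1 h3 with h4 | ⟨i, _, j, _, h4⟩
    · exact absurd h4 (by norm_num)
    · exact b_ne_zero _ _ h4.symm
  · have h4 := h3.card (by omega)
    have h5 : (allL n).length = 1 + n * (n - 1) := by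
      simp [allL, List.length_flatMap, add_comm]
    rw [Multiset.coe_card, h5] at h4
    have : n * 2 ≤ n * (n - 1) := Nat.mul_le_mul_left n (by omega)
    omega

theorem choices_nodup {ρ : ℕ → Set (Multiset ℕ)} {w : List ℕ} (hw : w.Nodup) {u : Multiset ℕ}
    (h : u ∈ choices ρ w) : ∃ g : ℕ → Multiset ℕ, (∀ x ∈ w, g x ∈ ρ x) ∧ u = (w.map g).sum := by
  obtain ⟨ms, h, rfl⟩ := h
  induction h with
  | nil => exact ⟨fun _ => 0, by simp, by simp⟩
  | @cons m x ms w h1 _ ih =>
    rw [List.nodup_cons] at hw
    obtain ⟨g, hg, hsum⟩ := ih hw.2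
    refine ⟨Function.update g x m, ?_, ?_⟩
    · intro y hy
      by_cases hyx : y = x
      · subst hyx; simpa using h1
      · rw [Function.update_of_ne hyx]
        rcases List.mem_cons.1 hy with hy | hy
        · exact absurd hy hyx
        · exact hg y hy
    · rw [List.sum_cons, List.map_cons, List.sum_cons, hsum, Function.update_self]
      congr 2
      apply List.map_congr_left
      intro y hy
      have hyx : y ≠ x := by
        rintro rfl
        exact hw.1 hy
      rw [Function.update_of_ne hyx]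

theorem le_lam {f : ℕ → ℕ} {u : Multiset ℕ} {v : ℕ} (h : v ∈ u) : f v ≤ lam f u := by
  obtain ⟨u', rfl⟩ := Multiset.exists_cons_of_mem h
  simp [lam]

theorem lam_star (f : ℕ → ℕ) (g : ℕ → Multiset ℕ) (m i : ℕ) :
    lam f ((starL m i).map g).sum = lam f (g 1) +
      ((List.range (m - 1)).map fun j => lam f (g (b i j))).sum := by
  unfold starL
  rw [List.map_cons, List.sum_cons, lam_add, List.map_map, lam_list_sum, List.map_map]
  rfl

theorem no_hom {m n : ℕ} (hm : 3 ≤ m) (hn : 3 ≤ n) (hmn : m ≠ n) (g : ℕ → Multiset ℕ)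
    (hg : ∀ x ∈ allL m, g x ≠ 0) (s : Multiset ℕ)
    (hstar : ∀ i < m, Edge n (s + ((starL m i).map g).sum))
    (hd : Edge n (s + ((dL m).map g).sum)) : False := by
  rcases Nat.lt_or_gt_of_ne hmn with hlt | hgt
  · -- m < n
    have step1 : ∀ f : ℕ → ℕ, (∀ i < m, lam f (s + ((starL m i).map g).sum) = 1) →
        lam f (s + ((dL m).map g).sum) = 1 → lam f (g 1) = 0 := by
      intro f h1 h2
      by_contra hne
      have hzero : ∀ i < m, lam f (g (b i 0)) = 0 ∧ lam f s = 0 := by
        intro i hi
        have e1 := h1 i hi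
        rw [lam_add, lam_star] at e1
        have e2 : lam f (g (b i 0)) ≤
            ((List.range (m - 1)).map fun j => lam f (g (b i j))).sum :=
          le_sum_of_mem' (a := fun j => lam f (g (b i j))) (List.mem_range.2 (by omega))
        omega
      have e3 : lam f ((dL m).map g).sum = 0 := by
        rw [lam_map_sum]
        apply List.sum_eq_zero
        intro y hy
        obtain ⟨x, hx, rfl⟩ := List.mem_map.1 hy
        obtain ⟨i, hi, rfl⟩ := mem_dL.1 hx
        exact (hzero i hi).1
      rw [lam_add, e3, (hzero 0 (by omega)).2] at h2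
      omega
    have step2 : ∀ i < n, ∀ j < n - 1, b i j ∉ g 1 := by
      intro i hi j hj hmem
      have hc : ∃ (c : ℕ → ℕ), c i = j ∧ ∀ w, Edge n w → lam (fc c) w = 1 := by
        by_cases hj0 : j = 0
        · refine ⟨fun l => if l = i then 0 else 1, by simp [hj0], fun w hw => ?_⟩
          apply exact_fc hi (by simp) _ (by omega) hw
          intro l _ hl
          simp only [if_neg hl]
          omega
        · obtain ⟨k, hk, hki⟩ : ∃ k, k < n ∧ k ≠ i := by
            by_cases h : i = 0
            · exact ⟨1, by omega, by omega⟩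
            · exact ⟨0, by omega, by omega⟩
          refine ⟨fun l => if l = k then 0 else if l = i then j else 1, ?_, fun w hw => ?_⟩
          · simp [hki.symm]
          · apply exact_fc hk (by simp) _ (by omega) hw
            intro l _ hl
            simp only [if_neg hl]
            split_ifs <;> omega
      obtain ⟨c, hci, hex⟩ := hc
      have e1 := step1 (fc c) (fun i hi => hex _ (hstar i hi)) (hex _ hd)
      have e2 := le_lam (f := fc c) hmem
      rw [fc_b, if_pos hci.symm] at e2
      omega
    have h1mem : 1 ∈ g 1 := by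
      have hne := hg 1 (mem_allL.2 (Or.inl rfl))
      obtain ⟨v, hv⟩ := Multiset.exists_mem_of_ne_zero hne
      have hv' : v ∈ s + ((starL m 0).map g).sum := by
        apply Multiset.mem_add.2
        right
        exact mem_list_sum.2 ⟨g 1, List.mem_map.2 ⟨1, mem_starL.2 (Or.inl rfl), rfl⟩, hv⟩
      rcases hstar 0 (by omega) with ⟨i, hi, he⟩ | he
      · rw [he] at hv'
        rcases mem_starL.1 hv' with rfl | ⟨j, hj, rfl⟩
        · exact hv
        · exact absurd hv (step2 i hi j hj)
      · rw [he] at hv'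
        obtain ⟨i, hi, rfl⟩ := mem_dL.1 hv'
        exact absurd hv (step2 i hi 0 (by omega))
    let Φ : Option (Fin m) → Multiset ℕ := fun o => match o with
      | some i => s + ((starL m i).map g).sum
      | none => s + ((dL m).map g).sum
    let Ψ : Option (Fin n) → Multiset ℕ := fun o => match o with
      | some i => (starL n i : Multiset ℕ)
      | none => (dL n : Multiset ℕ)
    have hΦ : ∀ o, Edge n (Φ o) := by
      rintro (_ | i)
      · exact hd
      · exact hstar i i.2
    have hcontr : ∀ f : ℕ → ℕ, f 1 = 1 → (∀ o, lam f (Φ o) = 1) → False := by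
      intro f hf1 h
      have e1 := step1 f (fun i hi => h (some ⟨i, hi⟩)) (h none)
      have e2 := le_lam (f := f) h1mem
      omega
    have step3 : ∀ o : Option (Fin n), ∃ o' : Option (Fin m), Φ o' = Ψ o := by
      rintro (_ | k)
      · by_contra hcon
        push Not at hcon
        apply hcontr (fun v => if v = 1 then 1 else 0) (by simp)
        intro o
        rw [lam_single]
        rcases hΦ o with ⟨i, hi, he⟩ | he
        · rw [he]
          exact Multiset.count_eq_one_of_mem (nodup_starL n i) (mem_starL.2 (Or.inl rfl))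
        · exact absurd he (hcon o)
      · by_contra hcon
        push Not at hcon
        apply hcontr (fun v => if v = 1 then 1 else if v = b k 0 then 1 else 0) (by simp)
        intro o
        rcases hΦ o with ⟨i, hi, he⟩ | he
        · have hik : i ≠ k := by
            rintro rfl
            exact hcon o he
          rw [he, lam_coe]
          unfold starL
          rw [List.map_cons, List.sum_cons, List.map_map]
          have : ((List.range (n - 1)).map ((fun v => if v = 1 then 1 else
              if v = b k 0 then 1 else 0) ∘ b i)).sum = 0 := by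
            apply List.sum_eq_zero
            intro y hy
            obtain ⟨j, _, rfl⟩ := List.mem_map.1 hy
            simp only [Function.comp]
            rw [if_neg (b_ne_one i j), if_neg (fun h => hik (b_inj h).1)]
          rw [this]
          simp
        · rw [he, lam_coe]
          unfold dL
          rw [List.map_map]
          have : (List.range n).map ((fun v => if v = 1 then 1 else
              if v = b k 0 then 1 else 0) ∘ fun i => b i 0) =
              (List.range n).map fun j => if j = (k : ℕ) then 1 else 0 := by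
            apply List.map_congr_left
            intro i _
            simp only [Function.comp]
            rw [if_neg (b_ne_one i 0)]
            by_cases hik : i = k
            · rw [hik]; simp
            · rw [if_neg (fun h => hik (b_inj h).1), if_neg hik]
          rw [this]
          exact sum_range_ite n k k.2
    have hΨ : Function.Injective Ψ := by
      rintro (_ | i) (_ | j) h
      · rfl
      · exfalso
        have h' : (dL n : Multiset ℕ) = (starL n j : Multiset ℕ) := h
        have : 1 ∈ (dL n : Multiset ℕ) := by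
          rw [h']; exact mem_starL.2 (Or.inl rfl)
        obtain ⟨i, _, h⟩ := mem_dL.1 this
        exact b_ne_one _ _ h.symm
      · exfalso
        have h' : (starL n i : Multiset ℕ) = (dL n : Multiset ℕ) := h
        have : 1 ∈ (dL n : Multiset ℕ) := by
          rw [← h']; exact mem_starL.2 (Or.inl rfl)
        obtain ⟨i, _, h⟩ := mem_dL.1 this
        exact b_ne_one _ _ h.symm
      · have h' : (starL n i : Multiset ℕ) = (starL n j : Multiset ℕ) := h
        have : b i 0 ∈ (starL n j : Multiset ℕ) := by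
          rw [← h']; exact mem_starL.2 (Or.inr ⟨0, by omega, rfl⟩)
        rcases mem_starL.1 this with h | ⟨k, _, h⟩
        · exact absurd h (b_ne_one _ _)
        · congr 1
          exact Fin.ext (b_inj h).1
    choose σ hσ using step3
    have hσinj : Function.Injective σ := by
      intro o o' h
      apply hΨ
      rw [← hσ, ← hσ, h]
    have := Fintype.card_le_of_injective σ hσinj
    simp at this
    omega
  · -- m > n
    have h1 := hd.card (by omega)
    rw [Multiset.card_add] at h1
    have h2 : m ≤ Multiset.card ((dL m).map g).sum := by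
      have h3 : ∀ l : List ℕ, (∀ x ∈ l, g x ≠ 0) → l.length ≤ Multiset.card (l.map g).sum := by
        intro l
        induction l with
        | nil => simp
        | cons x l ih =>
          intro h
          have e1 := ih fun y hy => h y (by simp [hy])
          have e2 : 0 < Multiset.card (g x) := Multiset.card_pos.2 (h x (by simp))
          simp only [List.map_cons, List.sum_cons, Multiset.card_add, List.length_cons]
          omega
      have h4 := h3 (dL m) (fun x hx => by
        obtain ⟨i, hi, rfl⟩ := mem_dL.1 hx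
        exact hg _ (mem_allL.2 (Or.inr ⟨i, hi, 0, by omega, rfl⟩)))
      simpa [dL] using h4
    omega

theorem T_ident {m n : ℕ} (hm : 3 ≤ m) (hn : 3 ≤ n) (hmn : m ≠ n) :
    Sat (T (K n)) (ident m) := by
  rw [sat_T]
  intro ρ s
  constructor
  · intro h u hu
    exact h u (Or.inl hu)
  · rintro h u (hu | hu)
    · exact h u hu
    obtain ⟨w, hw, hc⟩ := (mem_evalM _ _ _).1 hu
    rw [words_qT, Set.mem_singleton_iff] at hw
    subst hw
    obtain ⟨g, hg, rfl⟩ := choices_nodup (nodup_allL m) hc
    by_cases h0 : 0 ∈ s + ((allL m).map g).sum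
    · exact Or.inl h0
    exfalso
    have hg0 : ∀ x ∈ allL m, g x ≠ 0 := by
      intro x hx hh
      have := hg x hx
      rw [hh] at this
      exact (ρ x).2 this
    have hedge : ∀ e : List ℕ, (∀ x ∈ e, x ∈ allL m) → e ∈ words (PT m) →
        Edge n (s + (e.map g).sum) := by
      intro e he hw
      have h1 : (e.map g).sum ∈ (evalM ρ (ident m).2).1 := by
        rw [mem_evalM]
        exact ⟨e, hw, mem_choices_map fun x hx => hg x (he x hx)⟩
      rcases h _ h1 with h2 | h2
      · exfalso
        apply h0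
        rcases Multiset.mem_add.1 h2 with h3 | h3
        · exact Multiset.mem_add.2 (Or.inl h3)
        · obtain ⟨y, hy, h4⟩ := mem_list_sum.1 h3
          obtain ⟨x, hx, rfl⟩ := List.mem_map.1 hy
          exact Multiset.mem_add.2 (Or.inr (mem_list_sum.2
            ⟨g x, List.mem_map.2 ⟨x, he x hx, rfl⟩, h4⟩))
      · exact h2
    apply no_hom hm hn hmn g hg0 s
    · intro i hi
      apply hedge
      · intro x hx
        rcases mem_starL.1 hx with rfl | ⟨j, hj, rfl⟩
        · exact mem_allL.2 (Or.inl rfl)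
        · exact mem_allL.2 (Or.inr ⟨i, hi, j, hj, rfl⟩)
      · exact (mem_words_PT hm).2 (Or.inl ⟨i, hi, rfl⟩)
    · apply hedge
      · intro x hx
        obtain ⟨i, hi, rfl⟩ := mem_dL.1 hx
        exact mem_allL.2 (Or.inr ⟨i, hi, 0, by omega, rfl⟩)
      · exact (mem_words_PT hm).2 (Or.inr (Or.inl rfl))

/-! ### Counting the varieties -/

deriving instance Countable for Term

/-- The variety defined inside `V(S₇⁰)` by the identities indexed by `I`. -/
def VI (I : Set ℕ) : Set AISemiring := {S | S ∈ gen S70 ∧ ∀ k ∈ I, Sat S (ident (k + 3))}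

theorem VI_mem (I : Set ℕ) : VI I ∈ interval := by
  refine ⟨⟨{e | Sat S70 e} ∪ {e | ∃ k ∈ I, e = ident (k + 3)}, ?_⟩, ?_, ?_⟩
  · ext S
    constructor
    · rintro ⟨h1, h2⟩ e (he | ⟨k, hk, rfl⟩)
      · exact mem_gen.1 h1 e he
      · exact h2 k hk
    · intro h
      exact ⟨mem_gen.2 fun e he => h e (Or.inl he), fun k hk => h _ (Or.inr ⟨k, hk, rfl⟩)⟩
  · intro S hS
    rw [mem_gen] at hS
    exact ⟨mem_gen.2 fun e he => hS e (sat_S7 he), fun k _ => hS _ (S7_ident (by omega))⟩
  · intro S hS
    exact hS.1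

theorem VI_sub {I J : Set ℕ} (h : VI I = VI J) : J ⊆ I := by
  intro k hk
  by_contra hkI
  have h1 : T (K (k + 3)) ∈ VI I := by
    refine ⟨T_mem (by omega), fun j hj => T_ident (by omega) (by omega) ?_⟩
    intro hh
    have : j = k := by omega
    exact hkI (this ▸ hj)
  rw [h] at h1
  exact T_not_ident (by omega) (h1.2 k hk)

theorem VI_inj : Function.Injective VI := by
  intro I J h
  exact Set.Subset.antisymm (VI_sub h.symm) (VI_sub h)

/-- **Result.** The interval `[V(S₇), V(S₇⁰)]` has the cardinality of the continuum. -/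
theorem result : Cardinal.mk interval = Cardinal.continuum := by
  apply le_antisymm
  · let φ : interval → Set (Term × Term) := fun 𝒱 => {e | ∀ S ∈ 𝒱.1, Sat S e}
    have hφ : Function.Injective φ := by
      rintro ⟨𝒱, ⟨⟨T1, h1⟩, _⟩⟩ ⟨𝒲, ⟨⟨T2, h2⟩, _⟩⟩ h
      have h' : {e | ∀ S ∈ 𝒱, Sat S e} = {e | ∀ S ∈ 𝒲, Sat S e} := h
      apply Subtype.ext
      change 𝒱 = 𝒲
      have key : ∀ (𝒜 : Set AISemiring) (T : Set (Term × Term)),
          𝒜 = {S | ∀ e ∈ T, Sat S e} → 𝒜 = {S | ∀ e ∈ {e | ∀ S ∈ 𝒜, Sat S e}, Sat S e} := by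
        intro 𝒜 T hT
        ext S
        constructor
        · intro hS e he
          exact he S hS
        · intro hS
          rw [hT]
          intro e he
          apply hS
          intro S' hS'
          rw [hT] at hS'
          exact hS' e he
      rw [key 𝒱 T1 h1, key 𝒲 T2 h2, h']
    have h1 := Cardinal.lift_mk_le_lift_mk_of_injective hφ
    rw [Cardinal.mk_set] at h1
    have h2 : Cardinal.mk (Term × Term) ≤ Cardinal.aleph0 := Cardinal.mk_le_aleph0
    have h3 : (2 : Cardinal) ^ Cardinal.mk (Term × Term) ≤ Cardinal.continuum := by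
      rw [← Cardinal.two_power_aleph0]
      exact Cardinal.power_le_power_left two_ne_zero h2
    have h4 := h1.trans (Cardinal.lift_le.2 h3)
    rw [Cardinal.lift_continuum] at h4
    simpa using h4
  · let ψ : Set ℕ → interval := fun I => ⟨VI I, VI_mem I⟩
    have hψ : Function.Injective ψ := by
      intro I J h
      exact VI_inj (congrArg Subtype.val h)
    have h1 := Cardinal.lift_mk_le_lift_mk_of_injective hψ
    rw [Cardinal.mk_set_nat, Cardinal.lift_continuum] at h1
    simpa using h1

end Pool.Agent.Results.MP_9c5c66_al.ContinuumInterval
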